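import Pool.Agent.W999.ES.Defs

/-!
Project ES (helper999), part ES-POLY: the sampler is polynomial-time in the input and the coins.
-/

set_option autoImplicit false

namespace Pool.Agent.W933.ES

open Pool.Agent.NPC Pool.Agent.W999.ES

variable {γ β : Type} [TEnc γ] [TEnc β]

/-! ### Lists and numbers -/

theorem bval_eq (l : List Bool) : bval l = valB l.reverse := by
  have key : ∀ (l : List Bool) (n : ℕ),
      l.foldl (fun n b => 2 * n + (if b then 1 else 0)) n = valB l.reverse + 2 ^ l.length * n := by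
    intro l
    induction l with
    | nil => intro n; simp
    | cons b l ih =>
      intro n
      rw [List.foldl_cons, ih, List.reverse_cons, valB_append]
      simp only [List.length_reverse, List.length_cons, valB_cons, valB_nil, pow_succ]
      ring
  have := key l 0
  simpa [bval] using this

theorem poly_bval {l : γ → List Bool} (hl : Poly l) : Poly (fun x => bval (l x)) :=
  (NPC.Poly.valBits (NPC.Poly.reverse hl)).congr fun x => (bval_eq (l x)).symm

theorem poly_take {l : γ → List β} {n : γ → ℕ} (hl : Poly l) (hn : Poly n) :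
    Poly (fun x => (l x).take (n x)) := by
  have h1 : Poly (fun x => ((l x).zipIdx.filter (fun p => decide (p.2 < n x))).map
      (fun p => p.1)) :=
    NPC.Poly.map (F := fun _ (p : β × ℕ) => p.1)
      (NPC.Poly.filter (p := fun x (p : β × ℕ) => decide (p.2 < n x)) (NPC.Poly.zipIdx hl)
        (NPC.Poly.decide_lt (NPC.Poly.snd (NPC.Poly.snd NPC.Poly.id)) (hn.comp (NPC.Poly.fst NPC.Poly.id))))
      (NPC.Poly.fst (NPC.Poly.snd NPC.Poly.id))
  refine h1.congr fun x => ?_
  have key : ∀ (l : List β) (n k : ℕ), ((l.zipIdx k).filter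
      (fun p => decide (p.2 < n + k))).map (fun p => p.1) = l.take n := by
    intro l
    induction l with
    | nil => intro n k; simp
    | cons b l ih =>
      intro n k
      cases n with
      | zero =>
        rw [List.take_zero, List.map_eq_nil_iff, List.filter_eq_nil_iff]
        intro p hp
        have := List.le_snd_of_mem_zipIdx hp
        simp only [zero_add, decide_eq_true_eq]
        omega
      | succ n =>
        have := ih n (k + 1)
        rw [List.zipIdx_cons, List.filter_cons]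
        have hne : k < n + 1 + k := by omega
        simp only [hne, decide_true, if_true, List.map_cons, List.take_succ_cons]
        rw [← this]
        congr 4
        funext p
        simp only [decide_eq_decide]
        omega
  have := key (l x) (n x) 0
  simpa only [add_zero] using this

theorem poly_drop {l : γ → List β} {n : γ → ℕ} (hl : Poly l) (hn : Poly n) :
    Poly (fun x => (l x).drop (n x)) := by
  refine (NPC.Poly.reverse (poly_take (NPC.Poly.reverse hl) (NPC.Poly.sub (NPC.Poly.length hl) hn))).congr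
    fun x => ?_
  rw [List.take_reverse, List.reverse_reverse]
  rcases le_or_gt (n x) (l x).length with h | h
  · congr 1
    omega
  · rw [List.drop_of_length_le (by omega), List.drop_of_length_le (by omega)]

theorem poly_replicate {n : γ → ℕ} (hn : UPoly n) (b : β) :
    Poly (fun x => List.replicate (n x) b) :=
  (NPC.Poly.map hn (F := fun _ _ => b) (NPC.Poly.const b)).congr fun x => by simp

theorem poly_two_pow {n : γ → ℕ} (hn : UPoly n) : Poly (fun x => 2 ^ n x) :=
  (NPC.Poly.valBits (NPC.Poly.append (poly_replicate hn false) (NPC.Poly.const [true]))).congr fun x => by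
    rw [valB_replicate_false]
    simp

theorem upoly_two_pow {n : γ → ℕ} (hn : UPoly n)
    (h : ∃ p : Polynomial ℕ, ∀ x, 2 ^ n x ≤ p.eval (sz x)) : UPoly (fun x => 2 ^ n x) := by
  obtain ⟨p, hp⟩ := h
  have key : ∀ k : ℕ, (fun s : List Unit => s ++ s)^[k] [()] = List.replicate (2 ^ k) () := by
    intro k
    induction k with
    | zero => rfl
    | succ k ih =>
      rw [Function.iterate_succ_apply', ih, List.replicate_append_replicate, pow_succ, mul_two]
  have h1 : Poly (fun x => (fun s : List Unit => s ++ s)^[(List.replicate (n x) ()).length] [()]) := by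
    refine NPC.Poly.iterLen (s := fun _ => [()]) (F := fun _ (s : List Unit) => s ++ s) hn
      (NPC.Poly.const _) (NPC.Poly.append (NPC.Poly.snd NPC.Poly.id) (NPC.Poly.snd NPC.Poly.id))
      (Polynomial.C 2 * p + Polynomial.C 1) ?_
    intro x k hk
    rw [key]
    have h2 := sz_le_length_mul (List.replicate (2 ^ k) ()) 1 (by simp)
    rw [List.length_replicate] at hk h2
    have h3 : 2 ^ k ≤ 2 ^ n x := Nat.pow_le_pow_right (by norm_num) hk
    have h4 := hp x
    simp only [Polynomial.eval_add, Polynomial.eval_mul, Polynomial.eval_C]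
    omega
  refine h1.congr fun x => ?_
  rw [key, List.length_replicate]

theorem upoly_le {n : γ → ℕ} (hn : UPoly n) : ∃ p : Polynomial ℕ, ∀ x, n x ≤ p.eval (sz x) := by
  obtain ⟨p, hp⟩ := hn.sz_le
  refine ⟨p, fun x => ?_⟩
  have h1 := hp x
  have h2 := length_lt_sz (List.replicate (n x) ())
  rw [List.length_replicate] at h2
  omega

/-! ### Bit strings -/

theorem allB_iter (N : ℕ) : ∀ m, allB N m =
    (fun l : List (List Bool) => (l.flatMap (fun b => [false :: b, true :: b])).take N)^[m] [[]]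
  | 0 => rfl
  | m + 1 => by rw [Function.iterate_succ_apply', ← allB_iter N m]; rfl

theorem allB_length_le (N m : ℕ) : (allB N m).length ≤ N + 1 := by
  cases m with
  | zero => simp [allB]
  | succ m =>
    rw [allB, List.length_take]
    omega

theorem length_of_mem_allB (N : ℕ) : ∀ m, ∀ b ∈ allB N m, b.length = m := by
  intro m
  induction m with
  | zero => intro b hb; simp [allB] at hb; simp [hb]
  | succ m ih =>
    intro b hb
    have h1 := List.mem_of_mem_take hb
    rw [List.mem_flatMap] at h1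
    obtain ⟨c, hc, hb⟩ := h1
    have := ih c hc
    simp at hb
    rcases hb with rfl | rfl <;> simp [this]

theorem sz_allB_le (N m : ℕ) : sz (allB N m) ≤ (N + 1) * (4 * m + 2) + 1 := by
  have h1 := sz_le_length_mul (allB N m) (4 * m + 1) (by
    intro b hb
    have h2 := sz_listBool_le b
    rw [length_of_mem_allB N m b hb] at h2
    exact h2)
  have h2 := Nat.mul_le_mul_right (4 * m + 1 + 1) (allB_length_le N m)
  rw [show 4 * m + 1 + 1 = 4 * m + 2 from rfl] at h1 h2
  omega

theorem poly_allB {N m : γ → ℕ} (hN : UPoly N) (hm : UPoly m) :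
    NPC.Poly (fun x => allB (N x) (m x)) := by
  obtain ⟨r, hr⟩ := upoly_le hN
  obtain ⟨r', hr'⟩ := upoly_le hm
  have h1 : NPC.Poly (fun x => (fun l : List (List Bool) =>
      (l.flatMap (fun b => [false :: b, true :: b])).take (N x))^[(List.replicate (m x) ()).length]
        [[]]) := by
    refine NPC.Poly.iterLen (s := fun _ => [[]]) (F := fun x (l : List (List Bool)) =>
      (l.flatMap (fun b => [false :: b, true :: b])).take (N x)) hm (NPC.Poly.const _)
      (poly_take (NPC.Poly.flatMap (F := fun _ b => [false :: b, true :: b])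
        (NPC.Poly.snd NPC.Poly.id) ?_) (hN.toPoly.comp (NPC.Poly.fst NPC.Poly.id)))
      ((r + Polynomial.C 1) * (Polynomial.C 4 * r' + Polynomial.C 2) + Polynomial.C 1) ?_
    · have h2 : NPC.Poly (fun p : (γ × List (List Bool)) × List Bool => p.2) :=
        NPC.Poly.snd NPC.Poly.id
      exact NPC.Poly.cons (NPC.Poly.cons (NPC.Poly.const false) h2)
        (NPC.Poly.cons (NPC.Poly.cons (NPC.Poly.const true) h2) (NPC.Poly.const []))
    · intro x k hk
      rw [← allB_iter]
      rw [List.length_replicate] at hk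
      have h3 := sz_allB_le (N x) k
      have h4 : (N x + 1) * (4 * k + 2) ≤ (r.eval (sz x) + 1) * (4 * r'.eval (sz x) + 2) := by
        have := hr x
        have := hr' x
        exact Nat.mul_le_mul (by omega) (by omega)
      simp only [Polynomial.eval_add, Polynomial.eval_mul, Polynomial.eval_C]
      omega
  refine h1.congr fun x => ?_
  rw [← allB_iter, List.length_replicate]

theorem poly_swapB {m i e : γ → ℕ} {b : γ → List Bool} (hm : UPoly m) (hi : NPC.Poly i)
    (he : NPC.Poly e) (hb : NPC.Poly b) : NPC.Poly (fun x => swapB (m x) (i x) (e x) (b x)) := by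
  unfold swapB
  refine NPC.Poly.ite (NPC.Poly.decide_and (NPC.Poly.decide_lt hi hm.toPoly)
    (NPC.Poly.decide_lt he hm.toPoly)) (NPC.Poly.map (F := fun x j =>
      (b x).getD (if j = i x then e x else if j = e x then i x else j) false) hm.range ?_) hb
  have h1 : NPC.Poly (fun p : γ × ℕ => i p.1) := hi.comp (NPC.Poly.fst NPC.Poly.id)
  have h2 : NPC.Poly (fun p : γ × ℕ => e p.1) := he.comp (NPC.Poly.fst NPC.Poly.id)
  have h3 : NPC.Poly (fun p : γ × ℕ => p.2) := NPC.Poly.snd NPC.Poly.id
  exact NPC.Poly.getD (hb.comp (NPC.Poly.fst NPC.Poly.id))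
    (NPC.Poly.ite (NPC.Poly.decide_eq h3 h1) h2 (NPC.Poly.ite (NPC.Poly.decide_eq h3 h2) h1 h3))
    (NPC.Poly.const false)

theorem poly_stepB {m a : γ → ℕ} {q : γ → List Bool → Bool} {c b : γ → List Bool}
    (hm : UPoly m) (ha : NPC.Poly a) (hq : NPC.Poly (fun x : γ × List Bool => q x.1 x.2))
    (hc : NPC.Poly c) (hb : NPC.Poly b) :
    NPC.Poly (fun x => stepB (m x) (a x) (q x) (c x) (b x)) := by
  unfold stepB
  have h1 : NPC.Poly (fun x => swapB (m x) (bval ((c x).tail.take (a x)))
      (bval ((c x).tail.drop (a x))) (b x)) :=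
    poly_swapB hm (poly_bval (poly_take (NPC.Poly.tail hc) ha))
      (poly_bval (poly_drop (NPC.Poly.tail hc) ha)) hb
  have h2 : NPC.Poly (fun x => (c x).headD false) :=
    (NPC.Poly.head?_getD hc false).congr fun x => by rw [List.headD_eq_head?_getD]
  exact NPC.Poly.ite (NPC.Poly.decide_bool h2)
    (NPC.Poly.ite (NPC.Poly.decide_bool (hq.comp (NPC.Poly.pair NPC.Poly.id h1))) h1 hb) hb

theorem sz_stepB_le (m a : ℕ) (q : List Bool → Bool) (c b : List Bool) (B : ℕ)
    (h : 4 * m + 1 ≤ B) (hb : sz b ≤ B) : sz (stepB m a q c b) ≤ B := by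
  have key : ∀ i e, sz (swapB m i e b) ≤ B := by
    intro i e
    unfold swapB
    split_ifs
    · refine (sz_listBool_le _).trans ?_
      simpa using h
    · exact hb
  unfold stepB
  split_ifs
  · exact key _ _
  · exact hb
  · exact hb

theorem poly_walk {m a t : γ → ℕ} {q : γ → List Bool → Bool} {b₀ r : γ → List Bool}
    (hm : UPoly m) (ha : NPC.Poly a) (ht : UPoly t)
    (hq : NPC.Poly (fun x : γ × List Bool => q x.1 x.2))
    (hb : NPC.Poly b₀) (hr : NPC.Poly r) :
    NPC.Poly (fun x => walk (m x) (a x) (t x) (q x) (b₀ x) (r x)) := by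
  unfold walk
  obtain ⟨p, hp⟩ := upoly_le hm
  obtain ⟨p', hp'⟩ := hb.sz_le
  have f1 : NPC.Poly (fun y : γ × List Bool × ℕ => y.1) := NPC.Poly.fst NPC.Poly.id
  have f2 : NPC.Poly (fun y : γ × List Bool × ℕ => y.2.1) :=
    NPC.Poly.fst (NPC.Poly.snd NPC.Poly.id)
  have f3 : NPC.Poly (fun y : γ × List Bool × ℕ => y.2.2) :=
    NPC.Poly.snd (NPC.Poly.snd NPC.Poly.id)
  have h2 : NPC.Poly (fun y : γ × List Bool × ℕ => 2 * a y.1 + 1) :=
    NPC.Poly.add (NPC.Poly.mul (NPC.Poly.const 2) (ha.comp f1)) (NPC.Poly.const 1)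
  refine NPC.Poly.foldl (F := fun x b j => stepB (m x) (a x) (q x)
    (((r x).drop (j * (2 * a x + 1))).take (2 * a x + 1)) b) ht.range hb ?_
    (p' + Polynomial.C 4 * p + Polynomial.C 1) ?_
  · refine poly_stepB (hm.comp f1) (ha.comp f1) (q := fun y => q y.1) ?_
      (poly_take (poly_drop (hr.comp f1) (NPC.Poly.mul f3 h2)) h2) f2
    exact hq.comp (NPC.Poly.pair (NPC.Poly.fst (NPC.Poly.fst NPC.Poly.id))
      (NPC.Poly.snd NPC.Poly.id))
  · intro x k hk
    have key : ∀ (l : List ℕ) (b : List Bool) (B : ℕ), 4 * m x + 1 ≤ B → sz b ≤ B →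
        sz (l.foldl (fun b j => stepB (m x) (a x) (q x)
          (((r x).drop (j * (2 * a x + 1))).take (2 * a x + 1)) b) b) ≤ B := by
      intro l
      induction l with
      | nil => intro b B _ hb; exact hb
      | cons j l ih =>
        intro b B h1 h2
        rw [List.foldl_cons]
        exact ih _ B h1 (sz_stepB_le _ _ _ _ _ B h1 h2)
    have h3 := hp x
    have h4 := hp' x
    simp only [Polynomial.eval_add, Polynomial.eval_mul, Polynomial.eval_C]
    exact key _ _ _ (by omega) (by omega)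

/-! ### The table -/

theorem poly_look {T : γ → List (List Bool × ℕ)} {b : γ → List Bool} (hT : NPC.Poly T)
    (hb : NPC.Poly b) : NPC.Poly (fun x => look (T x) (b x)) := by
  unfold look
  exact NPC.Poly.sum (NPC.Poly.map (F := fun _ (p : List Bool × ℕ) => p.2)
    (NPC.Poly.filter (p := fun x (p : List Bool × ℕ) => decide (p.1 = b x)) hT
      (NPC.Poly.decide_eq (NPC.Poly.fst (NPC.Poly.snd NPC.Poly.id))
        (hb.comp (NPC.Poly.fst NPC.Poly.id))))
    (NPC.Poly.snd (NPC.Poly.snd NPC.Poly.id)))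

theorem poly_tstep {m a : γ → ℕ} {q : γ → List Bool → Bool} {T : γ → List (List Bool × ℕ)}
    (hm : UPoly m) (ha : UPoly a) (ha2 : UPoly (fun x => 2 ^ (2 * a x + 1)))
    (hq : NPC.Poly (fun x : γ × List Bool => q x.1 x.2)) (hT : NPC.Poly T) :
    NPC.Poly (fun x => tstep (m x) (a x) (q x) (T x)) := by
  unfold tstep
  have f1 : NPC.Poly (fun y : γ × List Bool × ℕ => y.1) := NPC.Poly.fst NPC.Poly.id
  have f2 : NPC.Poly (fun y : γ × List Bool × ℕ => y.2.1) :=
    NPC.Poly.fst (NPC.Poly.snd NPC.Poly.id)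
  refine NPC.Poly.map (F := fun x (p : List Bool × ℕ) => (p.1,
    ((allB (2 ^ (2 * a x + 1)) (2 * a x + 1)).map
      (fun c => look (T x) (stepB (m x) (a x) (q x) c p.1))).sum)) hT (NPC.Poly.pair f2 ?_)
  have h2 : UPoly (fun x => 2 * a x + 1) := ((UPoly.const 2).mul ha).add (UPoly.const 1)
  refine NPC.Poly.sum (NPC.Poly.map (F := fun (y : γ × List Bool × ℕ) c =>
    look (T y.1) (stepB (m y.1) (a y.1) (q y.1) c y.2.1)) (poly_allB (ha2.comp f1) (h2.comp f1)) ?_)
  have g1 : NPC.Poly (fun y : (γ × List Bool × ℕ) × List Bool => y.1.1) :=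
    NPC.Poly.fst (NPC.Poly.fst NPC.Poly.id)
  have g2 : NPC.Poly (fun y : (γ × List Bool × ℕ) × List Bool => y.1.2.1) :=
    NPC.Poly.fst (NPC.Poly.snd (NPC.Poly.fst NPC.Poly.id))
  have g3 : NPC.Poly (fun y : (γ × List Bool × ℕ) × List Bool => y.2) :=
    NPC.Poly.snd NPC.Poly.id
  refine poly_look (hT.comp g1) (poly_stepB (hm.comp g1) (ha.toPoly.comp g1)
    (q := fun y => q y.1.1) ?_ g3 g2)
  exact hq.comp (NPC.Poly.pair (NPC.Poly.fst (NPC.Poly.fst (NPC.Poly.fst NPC.Poly.id)))
    (NPC.Poly.snd NPC.Poly.id))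

theorem look_le (T : List (List Bool × ℕ)) (b : List Bool) (B : ℕ) (h : ∀ p ∈ T, p.2 ≤ B) :
    look T b ≤ T.length * B := by
  unfold look
  have h1 := List.sum_le_card_nsmul ((T.filter (fun p => decide (p.1 = b))).map (fun p => p.2)) B
    (by
      intro n hn
      rw [List.mem_map] at hn
      obtain ⟨p, hp, rfl⟩ := hn
      exact h p (List.mem_of_mem_filter hp))
  rw [smul_eq_mul, List.length_map] at h1
  exact h1.trans (Nat.mul_le_mul_right _ (List.length_filter_le _ _))

theorem tstep_iter (m a : ℕ) (q : List Bool → Bool) (T : List (List Bool × ℕ))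
    (hT : ∀ p ∈ T, p.2 ≤ 1) : ∀ k : ℕ, ((tstep m a q)^[k] T).length = T.length ∧
      ∀ p ∈ (tstep m a q)^[k] T, (∃ p' ∈ T, p'.1 = p.1) ∧
        p.2 ≤ ((2 ^ (2 * a + 1) + 1) * T.length) ^ k := by
  intro k
  induction k with
  | zero => exact ⟨rfl, fun p hp => ⟨⟨p, hp, rfl⟩, by simpa using hT p hp⟩⟩
  | succ k ih =>
    rw [Function.iterate_succ_apply']
    obtain ⟨h1, h2⟩ := ih
    refine ⟨by rw [tstep, List.length_map, h1], fun p hp => ?_⟩
    rw [tstep, List.mem_map] at hp
    obtain ⟨p', hp', rfl⟩ := hp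
    refine ⟨(h2 p' hp').1, ?_⟩
    have h3 := List.sum_le_card_nsmul ((allB (2 ^ (2 * a + 1)) (2 * a + 1)).map
      (fun c => look ((tstep m a q)^[k] T) (stepB m a q c p'.1)))
      (T.length * ((2 ^ (2 * a + 1) + 1) * T.length) ^ k) (by
        intro n hn
        rw [List.mem_map] at hn
        obtain ⟨c, _, rfl⟩ := hn
        have h4 := look_le ((tstep m a q)^[k] T) (stepB m a q c p'.1) _ (fun p hp => (h2 p hp).2)
        rwa [h1] at h4)
    rw [smul_eq_mul, List.length_map] at h3
    refine h3.trans ((Nat.mul_le_mul_right _ (allB_length_le _ _)).trans (le_of_eq ?_))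
    rw [pow_succ]
    ring

theorem poly_tab {N m a t : γ → ℕ} {q : γ → List Bool → Bool} {b₀ : γ → List Bool}
    (hN : UPoly N) (hm : UPoly m) (ha : UPoly a) (ht : UPoly t)
    (ha2 : UPoly (fun x => 2 ^ (2 * a x + 1)))
    (hq : NPC.Poly (fun x : γ × List Bool => q x.1 x.2)) (hb : NPC.Poly b₀) :
    NPC.Poly (fun x => tab (N x) (m x) (a x) (t x) (q x) (b₀ x)) := by
  have h0 : NPC.Poly (fun x => ((allB (N x) (m x)).filter (q x)).map
      (fun b => (b, if b = b₀ x then 1 else 0))) := by
    refine NPC.Poly.map (F := fun x b => (b, if b = b₀ x then 1 else 0))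
      (NPC.Poly.filter (poly_allB hN hm) hq) (NPC.Poly.pair (NPC.Poly.snd NPC.Poly.id)
        (NPC.Poly.ite (NPC.Poly.decide_eq (NPC.Poly.snd NPC.Poly.id)
          (hb.comp (NPC.Poly.fst NPC.Poly.id))) (NPC.Poly.const 1) (NPC.Poly.const 0)))
  obtain ⟨r, hr⟩ := h0.sz_le
  obtain ⟨p2, hp2⟩ := upoly_le ha2
  obtain ⟨pt, hpt⟩ := upoly_le ht
  have h1 : NPC.Poly (fun x => (tstep (m x) (a x) (q x))^[(List.replicate (t x) ()).length]
      (((allB (N x) (m x)).filter (q x)).map (fun b => (b, if b = b₀ x then 1 else 0)))) := by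
    have hstep : NPC.Poly (fun y : γ × List (List Bool × ℕ) =>
        tstep (m y.1) (a y.1) (q y.1) y.2) := by
      have f1 : NPC.Poly (fun y : γ × List (List Bool × ℕ) => y.1) := NPC.Poly.fst NPC.Poly.id
      have f2 : NPC.Poly (fun y : γ × List (List Bool × ℕ) => y.2) := NPC.Poly.snd NPC.Poly.id
      have g2 : UPoly (fun y : γ × List (List Bool × ℕ) => 2 ^ (2 * a y.1 + 1)) := ha2.comp f1
      have g3 : NPC.Poly (fun y : (γ × List (List Bool × ℕ)) × List Bool => q y.1.1 y.2) :=
        hq.comp (NPC.Poly.pair (NPC.Poly.fst (NPC.Poly.fst NPC.Poly.id))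
          (NPC.Poly.snd NPC.Poly.id))
      exact poly_tstep (m := fun y : γ × List (List Bool × ℕ) => m y.1) (a := fun y => a y.1)
        (q := fun y => q y.1) (T := fun y => y.2) (hm.comp f1) (ha.comp f1) g2 g3 f2
    refine NPC.Poly.iterLen (F := fun x T => tstep (m x) (a x) (q x) T) ht h0 hstep
      (r * (r + Polynomial.C 4 * ((p2 + Polynomial.C 1) * r * pt + Polynomial.C 1) +
        Polynomial.C 3) + Polynomial.C 1) ?_
    · intro x k hk
      rw [List.length_replicate] at hk
      have hrx := hr x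
      set T := ((allB (N x) (m x)).filter (q x)).map (fun b => (b, if b = b₀ x then 1 else 0))
        with hT
      have hT1 : ∀ p ∈ T, p.2 ≤ 1 := by
        intro p hp
        rw [hT, List.mem_map] at hp
        obtain ⟨b, _, rfl⟩ := hp
        dsimp only
        split_ifs <;> omega
      obtain ⟨h2, h3⟩ := tstep_iter (m x) (a x) (q x) T hT1 k
      have hn : T.length ≤ r.eval (sz x) := (length_lt_sz T).le.trans hrx
      have hA : 2 ^ (2 * a x + 1) + 1 ≤ p2.eval (sz x) + 1 := Nat.succ_le_succ (hp2 x)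
      have hk2 : k ≤ pt.eval (sz x) := hk.trans (hpt x)
      have h4 := sz_le_length_mul ((tstep (m x) (a x) (q x))^[k] T)
        (r.eval (sz x) + 4 * ((p2.eval (sz x) + 1) * r.eval (sz x) * pt.eval (sz x) + 1) + 2) (by
          intro p hp
          obtain ⟨⟨p', hp', e⟩, h5⟩ := h3 p hp
          have h6 := sz_le_of_mem hp'
          have h7 : sz p' = sz p'.1 + sz p'.2 + 1 := sz_pair p'.1 p'.2
          have h8 : sz p = sz p.1 + sz p.2 + 1 := sz_pair p.1 p.2
          rw [e] at h7
          have h9 : p.2 < 2 ^ ((p2.eval (sz x) + 1) * r.eval (sz x) * pt.eval (sz x) + 1) := by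
            refine lt_of_le_of_lt (h5.trans ?_) (Nat.pow_lt_pow_right (by norm_num)
              (Nat.lt_succ_self _))
            refine (Nat.pow_le_pow_left (Nat.lt_two_pow_self).le k).trans ?_
            rw [← pow_mul]
            exact Nat.pow_le_pow_right (by norm_num)
              (Nat.mul_le_mul (Nat.mul_le_mul hA hn) hk2)
          have h10 := Nat.size_le.2 h9
          have h11 := sz_nat_le p.2
          omega)
      rw [h2] at h4
      refine h4.trans ?_
      simp only [Polynomial.eval_add, Polynomial.eval_mul, Polynomial.eval_C]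
      exact Nat.add_le_add_right (Nat.mul_le_mul_right _ hn) 1
  refine h1.congr fun x => ?_
  rw [List.length_replicate]
  rfl

/-! ### The weights and the cells -/

theorem poly_wts {K L : γ → ℕ} {T : γ → List (List Bool × ℕ)} (hK : UPoly K) (hL : UPoly L)
    (hT : NPC.Poly T) : NPC.Poly (fun x => wts (K x) (L x) (T x)) := by
  unfold wts
  have f1 : NPC.Poly (fun y : γ × List Bool × ℕ => y.1) := NPC.Poly.fst NPC.Poly.id
  have f2 : NPC.Poly (fun y : γ × List Bool × ℕ => y.2.1) :=
    NPC.Poly.fst (NPC.Poly.snd NPC.Poly.id)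
  have f3 : NPC.Poly (fun y : γ × List Bool × ℕ => y.2.2) :=
    NPC.Poly.snd (NPC.Poly.snd NPC.Poly.id)
  exact NPC.Poly.map (F := fun x (p : List Bool × ℕ) =>
    (p.1, 2 ^ (K x + L x) - (T x).length * ((2 ^ K x - 1) * p.2))) hT
    (NPC.Poly.pair f2 (NPC.Poly.sub ((poly_two_pow (hK.add hL)).comp f1)
      (NPC.Poly.mul ((NPC.Poly.length hT).comp f1)
        (NPC.Poly.mul (NPC.Poly.sub ((poly_two_pow hK).comp f1) (NPC.Poly.const 1)) f3))))

theorem poly_isSome {o : γ → Option β} (ho : NPC.Poly o) : NPC.Poly (fun x => (o x).isSome) :=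
  (NPC.Poly.optCases (h := fun _ _ => true) ho (NPC.Poly.const false)
    (NPC.Poly.const true)).congr fun x => by cases o x <;> rfl

theorem poly_cell {k U Z : γ → ℕ} {T : γ → List (List Bool × ℕ)} (hk : UPoly k)
    (hU : NPC.Poly U) (hZ : NPC.Poly Z) (hT : NPC.Poly T) :
    NPC.Poly (fun x => cell (k x) (U x) (Z x) (T x)) := by
  unfold cell
  have f1 : NPC.Poly (fun y : γ × (ℕ × Option (List Bool)) × (List Bool × ℕ) => y.1) :=
    NPC.Poly.fst NPC.Poly.id
  have f2 : NPC.Poly (fun y : γ × (ℕ × Option (List Bool)) × (List Bool × ℕ) => y.2.1.1) :=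
    NPC.Poly.fst (NPC.Poly.fst (NPC.Poly.snd NPC.Poly.id))
  have f3 : NPC.Poly (fun y : γ × (ℕ × Option (List Bool)) × (List Bool × ℕ) => y.2.1.2) :=
    NPC.Poly.snd (NPC.Poly.fst (NPC.Poly.snd NPC.Poly.id))
  have f4 : NPC.Poly (fun y : γ × (ℕ × Option (List Bool)) × (List Bool × ℕ) => y.2.2.1) :=
    NPC.Poly.fst (NPC.Poly.snd (NPC.Poly.snd NPC.Poly.id))
  have f5 : NPC.Poly (fun y : γ × (ℕ × Option (List Bool)) × (List Bool × ℕ) => y.2.2.2) :=
    NPC.Poly.snd (NPC.Poly.snd (NPC.Poly.snd NPC.Poly.id))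
  have h1 := (poly_two_pow hk).comp f1
  have h2 := NPC.Poly.add f2 f5
  obtain ⟨r, hr⟩ := hT.sz_le
  have hs : NPC.Poly (fun x => ((T x).map (fun p => p.2)).sum) :=
    NPC.Poly.sum (NPC.Poly.map (F := fun _ (p : List Bool × ℕ) => p.2) hT
      (NPC.Poly.snd (NPC.Poly.snd NPC.Poly.id)))
  obtain ⟨r', hr'⟩ := hs.sz_le
  refine NPC.Poly.snd (NPC.Poly.foldl (F := fun x (s : ℕ × Option (List Bool))
    (p : List Bool × ℕ) => (s.1 + p.2, if s.2.isSome = true then s.2
      else if s.1 * 2 ^ k x ≤ U x * Z x ∧ (U x + 1) * Z x ≤ (s.1 + p.2) * 2 ^ k x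
        then some p.1 else none)) (s := fun _ => ((0, none) : ℕ × Option (List Bool))) hT
    (NPC.Poly.const _) (NPC.Poly.pair h2 (NPC.Poly.ite
      (NPC.Poly.decide_bool (poly_isSome f3)) f3 (NPC.Poly.ite (NPC.Poly.decide_and
        (NPC.Poly.decide_le (NPC.Poly.mul f2 h1) (NPC.Poly.mul (hU.comp f1) (hZ.comp f1)))
        (NPC.Poly.decide_le (NPC.Poly.mul (NPC.Poly.succ (hU.comp f1)) (hZ.comp f1))
          (NPC.Poly.mul h2 h1))) (NPC.Poly.some f4) (NPC.Poly.const none))))
    (Polynomial.C 2 * r' + r + Polynomial.C 3) ?_)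
  intro x n hn
  have key : ∀ (l : List (List Bool × ℕ)) (s : ℕ × Option (List Bool)) (B : ℕ),
      sz s.2 ≤ B + 2 → (∀ p ∈ l, sz p.1 ≤ B) →
      ((l.foldl (fun (s : ℕ × Option (List Bool)) (p : List Bool × ℕ) =>
        (s.1 + p.2, if s.2.isSome = true then s.2
        else if s.1 * 2 ^ k x ≤ U x * Z x ∧ (U x + 1) * Z x ≤ (s.1 + p.2) * 2 ^ k x
          then some p.1 else none)) s).1 = s.1 + (l.map (fun p => p.2)).sum ∧
      sz (l.foldl (fun (s : ℕ × Option (List Bool)) (p : List Bool × ℕ) =>
        (s.1 + p.2, if s.2.isSome = true then s.2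
        else if s.1 * 2 ^ k x ≤ U x * Z x ∧ (U x + 1) * Z x ≤ (s.1 + p.2) * 2 ^ k x
          then some p.1 else none)) s).2 ≤ B + 2) := by
    intro l
    induction l with
    | nil => intro s B h1 _; exact ⟨rfl, h1⟩
    | cons p l ih =>
      intro s B h1 h2
      rw [List.foldl_cons]
      obtain ⟨e1, e2⟩ := ih (s.1 + p.2, if s.2.isSome = true then s.2
        else if s.1 * 2 ^ k x ≤ U x * Z x ∧ (U x + 1) * Z x ≤ (s.1 + p.2) * 2 ^ k x
          then some p.1 else none) B (by
            have h3 := h2 p (by simp)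
            dsimp only
            split_ifs
            · exact h1
            · rw [sz_some]; omega
            · rw [sz_none]; omega) (fun p hp => h2 p (List.mem_cons_of_mem _ hp))
      refine ⟨?_, e2⟩
      rw [e1, List.map_cons, List.sum_cons]
      dsimp only
      ring
  have h3 : ∀ p ∈ (T x).take n, sz p.1 ≤ r.eval (sz x) := by
    intro p hp
    have h4 := sz_le_of_mem (List.mem_of_mem_take hp)
    have h5 : sz p = sz p.1 + sz p.2 + 1 := sz_pair p.1 p.2
    have h6 := hr x
    omega
  obtain ⟨e1, e2⟩ := key ((T x).take n) (0, none) (r.eval (sz x)) (by rw [sz_none]; omega) h3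
  have h4 : ((List.take n (T x)).map (fun p => p.2)).sum ≤ ((T x).map (fun p => p.2)).sum := by
    conv_rhs => rw [← List.take_append_drop n (T x), List.map_append, List.sum_append]
    omega
  have h5 := sz_nat_mono_le h4
  have h6 := hr' x
  simp only [Polynomial.eval_add, Polynomial.eval_mul, Polynomial.eval_C]
  set s := (List.take n (T x)).foldl (fun (s : ℕ × Option (List Bool)) (p : List Bool × ℕ) =>
        (s.1 + p.2, if s.2.isSome = true then s.2
        else if s.1 * 2 ^ k x ≤ U x * Z x ∧ (U x + 1) * Z x ≤ (s.1 + p.2) * 2 ^ k x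
          then some p.1 else none)) (0, none) with hs
  have h7 : sz s = sz s.1 + sz s.2 + 1 := sz_pair s.1 s.2
  rw [e1, zero_add] at h7
  rw [h7]
  omega

/-! ### The sampler -/

theorem poly : S_POLY := by
  intro α _ m K a t q b₀ hm hK ha ht h2a hq hb
  have f1 : NPC.Poly (fun p : α × List Bool => p.1) := NPC.Poly.fst NPC.Poly.id
  have f2 : NPC.Poly (fun p : α × List Bool => p.2) := NPC.Poly.snd NPC.Poly.id
  have gm := hm.comp f1
  have gK := hK.comp f1
  have ga := ha.comp f1
  have gt := ht.comp f1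
  have gb := hb.comp f1
  have gq : NPC.Poly (fun y : (α × List Bool) × List Bool => (fun p => q p.1) y.1 y.2) :=
    hq.comp (NPC.Poly.pair (NPC.Poly.fst (NPC.Poly.fst NPC.Poly.id))
      (NPC.Poly.snd NPC.Poly.id))
  have g2a : UPoly (fun p : α × List Bool => 2 ^ a p.1) := (upoly_two_pow ha h2a).comp f1
  have gL1 : UPoly (fun p : α × List Bool => 2 * a p.1 + 1) :=
    ((UPoly.const 2).mul ga).add (UPoly.const 1)
  have gA : UPoly (fun p : α × List Bool => 2 ^ (2 * a p.1 + 1)) :=
    (((UPoly.const 2).mul (g2a.mul g2a))).congr fun p => by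
      have e : 2 * (2 ^ a p.1 * 2 ^ a p.1) = 2 ^ (2 * a p.1 + 1) := by
        ring
      exact congrArg (fun n => List.replicate n ()) e
  have gL : UPoly (fun p : α × List Bool => t p.1 * (2 * a p.1 + 1)) := gt.mul gL1
  have glen : UPoly (fun p : α × List Bool => p.2.length) := UPoly.length f2
  have gdrop : NPC.Poly (fun p : α × List Bool => p.2.drop (K p.1)) := poly_drop f2 gK.toPoly
  have gtake : NPC.Poly (fun p : α × List Bool => p.2.take (K p.1)) := poly_take f2 gK.toPoly
  have gtab := poly_tab (q := fun p => q p.1) glen gm ga gt gA gq gb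
  have glk : UPoly (fun p : α × List Bool => p.2.length - K p.1) :=
    (UPoly.length gdrop).congr fun p =>
      congrArg (fun n => List.replicate n ()) (List.length_drop (i := K p.1) (l := p.2))
  unfold core
  refine NPC.Poly.ite (NPC.Poly.decide_lt glen.toPoly (gK.add gL).toPoly) (NPC.Poly.const none)
    (NPC.Poly.ite (NPC.Poly.decide_bool (NPC.Poly.any (p := fun _ (b : Bool) => b) gtake
      (NPC.Poly.snd NPC.Poly.id))) (NPC.Poly.some (poly_walk (q := fun p => q p.1) gm ga.toPoly gt gq gb gdrop))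
      (NPC.Poly.ite (NPC.Poly.decide_lt glen.toPoly (NPC.Poly.add gK.toPoly (poly_two_pow gm)))
        (NPC.Poly.const none) (poly_cell glk (poly_bval gdrop)
          (NPC.Poly.mul (NPC.Poly.length gtab) (poly_two_pow gL)) (poly_wts gK gL gtab))))

end Pool.Agent.W933.ES
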